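import Pool.Agent.W259.Nona.TypeI2
import Pool.Agent.W259.Nona.Main
import Pool.Agent.W120.NO.Corner
import Pool.Agent.W120.NO.Cell
import Pool.Agent.W120.NO.Mid
import Pool.Agent.W120.NO.Area
import Pool.Agent.W120.NO.Gen
import Pool.Agent.W120.NO.Sep
import Pool.Agent.W120.NO.Shape
import Pool.Agent.W424.NO2
import Pool.Agent.W424.NO3
import Pool.Agent.W424.NO4
import Pool.Agent.W424.NO5

set_option autoImplicit false

open Real Set Metric MeasureTheory

namespace Pool.Agent.Results.MP_b090c9_co.NonagonDensity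

open Pool.Agent.W259.Nona

/-- the plane -/
abbrev Plane := EuclideanSpace ℝ (Fin 2)

/-- a packing with congruent copies of `C`: a set of images of `C` under isometries of the plane
whose interiors are pairwise disjoint -/
def IsPacking (C : Set Plane) (P : Set (Set Plane)) : Prop :=
  (∀ D ∈ P, ∃ f : Plane ≃ᵢ Plane, D = f '' C) ∧
    ∀ D ∈ P, ∀ D' ∈ P, D ≠ D' → Disjoint (interior D) (interior D')

/-- the upper density: limsup of the total area of the members contained in the disc of radius `r`
about the origin, divided by the area of that disc -/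
noncomputable def upperDensity (P : Set (Set Plane)) : ENNReal :=
  Filter.limsup (fun r : ℝ =>
    (∑' D : {D : Set Plane // D ∈ P ∧ D ⊆ closedBall 0 r}, volume (D : Set Plane))
      / ENNReal.ofReal (π * r ^ 2)) Filter.atTop

/-- the packing density -/
noncomputable def packingDensity (C : Set Plane) : ENNReal :=
  ⨆ (P : Set (Set Plane)) (_ : IsPacking C P), upperDensity P

/-- the Reinhardt constant -/
noncomputable def deltaR : ℝ := (8 - 4 * √2 - Real.log 2) / (2 * √2 - 1)

/-- the regular nonagon with centre `0`, a vertex on the first axis and inradius one -/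
noncomputable def nonagon : Set Plane :=
  convexHull ℝ (Set.range (fun k : ℤ =>
    (!₂[cos (2 * π / 9 * k) / cos (π / 9), sin (2 * π / 9 * k) / cos (π / 9)] : Plane)))

theorem nonagon_eq : nonagon = body 0 0 := by
  unfold nonagon body
  congr 1
  apply congrArg
  funext k
  unfold vtx
  simp

theorem deltaR_gt : 0.9023 < deltaR := by
  unfold deltaR
  have h2 : √2 < 1.414214 := by
    rw [Real.sqrt_lt' (by norm_num)]; norm_num
  have h2' : 1.4142 < √2 := by
    rw [Real.lt_sqrt (by norm_num)]; norm_num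
  have hl := Real.log_two_lt_d9
  rw [lt_div_iff₀ (by linarith)]
  linarith

theorem mu_pos : 0 < mu := by
  unfold mu
  have := t9_pos
  positivity

/-- the bound for finitely many members inside a large disc -/
theorem finite_bound : ∃ R0 : ℝ, ∀ r : ℝ, R0 ≤ r → ∀ P : Set (Set Plane), IsPacking nonagon P →
    ∀ Q : Finset {D : Set Plane // D ∈ P ∧ D ⊆ closedBall 0 r},
      ∑ D ∈ Q, volume (D : Set Plane) ≤ ENNReal.ofReal 0.9023 * ENNReal.ofReal (π * r ^ 2) := by
  classical
  obtain ⟨K, hK0, hK⟩ := count_centres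
    (loc Pool.Agent.W424.NO3.main
      (typeI Pool.Agent.W120.NO.corner Pool.Agent.W424.NO2.main Pool.Agent.W424.NO4.ident
        Pool.Agent.W424.NO4.mono) Pool.Agent.W424.NO5.main)
    (global Pool.Agent.W120.NO.uniq Pool.Agent.W120.NO.adj Pool.Agent.W120.NO.mid
      Pool.Agent.W120.NO.area)
    Pool.Agent.W120.NO.saturate Pool.Agent.W120.NO.generic
  obtain ⟨hvol, hshape⟩ := Pool.Agent.W120.NO.shape
  refine ⟨max 2000000 (1000000 * K), ?_⟩
  intro r hr P hP Q
  have hr1 : (2000000:ℝ) ≤ r := (le_max_left _ _).trans hr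
  have hr2 : 1000000 * K ≤ r := (le_max_right _ _).trans hr
  have hex : ∀ D : {D : Set Plane // D ∈ P ∧ D ⊆ closedBall 0 r}, ∃ c ω, (D : Set Plane) = body c ω := by
    intro D
    obtain ⟨f, hf⟩ := hP.1 D D.2.1
    obtain ⟨c, ω, h⟩ := Pool.Agent.W120.NO.isom f
    exact ⟨c, ω, by rw [hf, nonagon_eq, h]⟩
  choose c w hcw using hex
  have hsepQ : ∀ D D' : {D : Set Plane // D ∈ P ∧ D ⊆ closedBall 0 r}, D ≠ D' →
      Sep (c D) (c D') (w D) (w D') := by
    intro D D' hne
    apply Pool.Agent.W120.NO.sep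
    rw [← hcw D, ← hcw D']
    exact hP.2 D D.2.1 D' D'.2.1 (fun h => hne (Subtype.ext h))
  have hinj : ∀ D D' : {D : Set Plane // D ∈ P ∧ D ⊆ closedBall 0 r}, c D = c D' → D = D' := by
    intro D D' h
    by_contra hne
    have := sep_dist _ _ _ _ (hsepQ D D' hne)
    rw [h, dist_self] at this
    norm_num at this
  set F : Finset Plane := Q.image c with hF
  set ω : Plane → ℝ := fun x => if h : ∃ D ∈ Q, c D = x then w h.choose else 0 with hω
  have hω' : ∀ D ∈ Q, ω (c D) = w D := by
    intro D hD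
    have h : ∃ D' ∈ Q, c D' = c D := ⟨D, hD, rfl⟩
    simp only [hω]
    rw [dif_pos h, hinj _ _ h.choose_spec.2]
  have hsepF : ∀ a ∈ F, ∀ b ∈ F, a ≠ b → Sep a b (ω a) (ω b) := by
    intro a ha b hb hab
    rw [hF, Finset.mem_image] at ha hb
    obtain ⟨D, hD, rfl⟩ := ha
    obtain ⟨D', hD', rfl⟩ := hb
    rw [hω' D hD, hω' D' hD']
    exact hsepQ D D' (fun h => hab (by rw [h]))
  have hnormF : ∀ a ∈ F, ‖a‖ ≤ r := by
    intro a ha
    rw [hF, Finset.mem_image] at ha
    obtain ⟨D, hD, rfl⟩ := ha
    have h1 : c D ∈ (D : Set Plane) := by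
      have := (hshape (c D) (w D)).2.2.2
      rwa [← hcw D] at this
    have h2 := D.2.2 h1
    rwa [mem_closedBall, dist_zero_right] at h2
  have hcardF : F.card = Q.card := by
    rw [hF]
    exact Finset.card_image_of_injective Q (fun D D' h => hinj D D' h)
  have hmain := hK F ω r (by linarith) hsepF hnormF
  rw [hcardF] at hmain
  have hsum : ∑ D ∈ Q, volume (D : Set Plane) ≤ ENNReal.ofReal (Q.card * (9 * tan (π / 9))) := by
    calc ∑ D ∈ Q, volume (D : Set Plane) ≤ ∑ D ∈ Q, ENNReal.ofReal (9 * tan (π / 9)) := by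
          apply Finset.sum_le_sum
          intro D _
          rw [hcw D]
          exact hvol _ _
      _ = ENNReal.ofReal (Q.card * (9 * tan (π / 9))) := by
          rw [Finset.sum_const, nsmul_eq_mul,
            ENNReal.ofReal_mul (p := (Q.card : ℝ)) (by positivity), ENNReal.ofReal_natCast]
  refine hsum.trans ?_
  rw [← ENNReal.ofReal_mul (by norm_num)]
  apply ENNReal.ofReal_le_ofReal
  have hpi := pi_pos
  have ht1 := t9_lt
  have ht0 := t9_pos
  have hn0 : (0:ℝ) ≤ Q.card := by positivity
  have hmu : 2 * mu = 9 * tan (π / 9) + 0.3556 := by unfold mu; ring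
  rw [hmu] at hmain
  have h1 : π * (1.000101 * r + 7) ^ 2 ≤ π * (1.000105 * r) ^ 2 := by
    apply mul_le_mul_of_nonneg_left _ hpi.le
    apply pow_le_pow_left₀ (by linarith)
    linarith
  have h2 : K * r ≤ 0.000001 * (π * r ^ 2) := by
    have h3 : K * r ≤ 0.000001 * r ^ 2 := by nlinarith
    have h4 : 0.000001 * r ^ 2 ≤ 0.000001 * (π * r ^ 2) := by
      have : r ^ 2 ≤ π * r ^ 2 := by
        have := pi_gt_three
        nlinarith [sq_nonneg r]
      linarith
    linarith
  have h3 : (9 * tan (π / 9) + 0.3556) * Q.card ≤ 1.000212 * (π * r ^ 2) := by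
    have e : π * (1.000105 * r) ^ 2 = 1.000105 ^ 2 * (π * r ^ 2) := by ring
    rw [e] at h1
    have hpos : 0 ≤ π * r ^ 2 := by positivity
    nlinarith
  -- with `x = 9 tan (pi/9)`: `x / (x + 0.3556) * 1.000212 ≤ 0.9023`
  set x := 9 * tan (π / 9) with hx
  have hx1 : x < 3.275739 := by rw [hx]; linarith
  have hx0 : 0 < x := by rw [hx]; positivity
  have h4 : x * 1.000212 ≤ 0.9023 * (x + 0.3556) := by linarith
  have h5 : (x + 0.3556) * (Q.card * x) ≤ (x + 0.3556) * (0.9023 * (π * r ^ 2)) := by
    have hpos : 0 ≤ π * r ^ 2 := by positivity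
    calc (x + 0.3556) * (Q.card * x) = x * ((x + 0.3556) * Q.card) := by ring
      _ ≤ x * (1.000212 * (π * r ^ 2)) := mul_le_mul_of_nonneg_left h3 hx0.le
      _ = (x * 1.000212) * (π * r ^ 2) := by ring
      _ ≤ (0.9023 * (x + 0.3556)) * (π * r ^ 2) := mul_le_mul_of_nonneg_right h4 hpos
      _ = (x + 0.3556) * (0.9023 * (π * r ^ 2)) := by ring
  exact le_of_mul_le_mul_left h5 (by linarith)

theorem density_le : packingDensity nonagon ≤ ENNReal.ofReal 0.9023 := by
  unfold packingDensity
  apply iSup_le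
  intro P
  apply iSup_le
  intro hP
  obtain ⟨R0, hR0⟩ := finite_bound
  unfold upperDensity
  refine Filter.limsup_le_of_le (by isBoundedDefault) ?_
  filter_upwards [Filter.eventually_ge_atTop R0] with r hr
  apply ENNReal.div_le_of_le_mul
  rw [ENNReal.tsum_eq_iSup_sum]
  apply iSup_le
  intro Q
  exact hR0 r hr P hP Q

/-- The regular nonagon is a convex disc whose packing density (over all packings by congruent
copies) is at most `0.9023`, hence smaller than the Reinhardt constant. -/
theorem result :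
    (∃ C : Set Plane, Convex ℝ C ∧ IsCompact C ∧ (interior C).Nonempty ∧
      packingDensity C < ENNReal.ofReal deltaR) ∧
    packingDensity nonagon ≤ ENNReal.ofReal 0.9023 := by
  have h := (Pool.Agent.W120.NO.shape).2 0 0
  rw [← nonagon_eq] at h
  refine ⟨⟨nonagon, h.1, h.2.1, h.2.2.1, density_le.trans_lt ?_⟩, density_le⟩
  rw [ENNReal.ofReal_lt_ofReal_iff (by linarith [deltaR_gt])]
  exact deltaR_gt

end Pool.Agent.Results.MP_b090c9_co.NonagonDensity
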